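import Pool.Agent.Helper57.QZ.Stmts2

set_option autoImplicit false

namespace Pool.Agent.Helper57.QZ

open MeasureTheory Set Filter Topology

namespace S4UT

theorem abs_Ek_le (k : ℕ) (x : ℝ) : |Ek k x| ≤ Real.exp |x| := by
  unfold Ek
  refine (Finset.abs_sum_le_sum_abs _ _).trans ?_
  refine le_trans (le_of_eq ?_) (Real.sum_le_exp_of_nonneg (abs_nonneg x) (k + 1))
  refine Finset.sum_congr rfl fun j _ => ?_
  rw [abs_div, abs_pow, abs_of_nonneg (by positivity : (0:ℝ) ≤ (j.factorial : ℝ))]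

theorem Ek_nonneg {k : ℕ} {x : ℝ} (hx : 0 ≤ x) : 0 ≤ Ek k x := by
  unfold Ek
  exact Finset.sum_nonneg fun j _ => by positivity

theorem Ek_mono {k : ℕ} {x y : ℝ} (hx : 0 ≤ x) (hxy : x ≤ y) : Ek k x ≤ Ek k y := by
  unfold Ek
  refine Finset.sum_le_sum fun j _ => ?_
  exact div_le_div_of_nonneg_right (pow_le_pow_left₀ hx hxy j) (by positivity)

theorem exp_le_Ek (k : ℕ) {x : ℝ} (hx : 0 ≤ x) :
    Real.exp x ≤ Ek k x + (1 / 8) ^ (k + 1) * Real.exp (8 * x) := by
  have h1 : HasSum (fun n : ℕ => x ^ n / (n.factorial : ℝ)) (Real.exp x) := by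
    rw [Real.exp_eq_exp_ℝ]
    exact NormedSpace.expSeries_div_hasSum_exp x
  have h2 : ∀ n, k + 1 ≤ n → ∑ j ∈ Finset.range n, x ^ j / (j.factorial : ℝ) ≤
      Ek k x + (1 / 8) ^ (k + 1) * ∑ j ∈ Finset.range n, (8 * x) ^ j / (j.factorial : ℝ) := by
    intro n hn
    induction n, hn using Nat.le_induction with
    | base =>
      have : 0 ≤ (1 / 8 : ℝ) ^ (k + 1) *
          ∑ j ∈ Finset.range (k + 1), (8 * x) ^ j / (j.factorial : ℝ) :=
        mul_nonneg (by positivity) (Finset.sum_nonneg fun j _ => by positivity)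
      unfold Ek
      linarith
    | succ n hn ih =>
      rw [Finset.sum_range_succ, Finset.sum_range_succ, mul_add]
      have h3 : x ^ n / (n.factorial : ℝ) ≤
          (1 / 8) ^ (k + 1) * ((8 * x) ^ n / (n.factorial : ℝ)) := by
        have h4 : x ^ n = (1 / 8) ^ n * (8 * x) ^ n := by
          rw [← mul_pow]; congr 1; ring
        rw [h4, mul_div_assoc]
        refine mul_le_mul_of_nonneg_right ?_ (by positivity)
        exact pow_le_pow_of_le_one (by norm_num) (by norm_num) hn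
      linarith
  refine le_of_tendsto h1.tendsto_sum_nat ?_
  filter_upwards [eventually_ge_atTop (k + 1)] with n hn
  refine (h2 n hn).trans ?_
  have h5 := Real.sum_le_exp_of_nonneg (by positivity : 0 ≤ 8 * x) n
  have h6 := mul_le_mul_of_nonneg_left h5 (by positivity : (0:ℝ) ≤ (1 / 8) ^ (k + 1))
  linarith

theorem Ek_ge {k : ℕ} (hk : 1 ≤ k) {x : ℝ} (hx : 0 ≤ x) (hxk : x ≤ k / 8) :
    9 / 10 * Real.exp x ≤ Ek k x := by
  have h1 := exp_le_Ek k hx
  have h2 : Real.exp (8 * x) ≤ Real.exp 1 ^ k := by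
    rw [← Real.exp_nat_mul, mul_one]
    exact Real.exp_le_exp.2 (by linarith)
  have h3 : (1 / 8 : ℝ) ^ (k + 1) * Real.exp 1 ^ k ≤ 1 / 10 := by
    have h4 : (1 / 8 : ℝ) ^ (k + 1) * Real.exp 1 ^ k = 1 / 8 * (Real.exp 1 / 8) ^ k := by
      rw [pow_succ, div_pow, div_pow, one_pow]; ring
    have h5 : (Real.exp 1 / 8) ^ k ≤ (Real.exp 1 / 8) ^ 1 :=
      pow_le_pow_of_le_one (by positivity) (by linarith [Real.exp_one_lt_three]) hk
    rw [h4]
    rw [pow_one] at h5
    linarith [Real.exp_one_lt_three]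
  have h6 := mul_le_mul_of_nonneg_left h2 (by positivity : (0:ℝ) ≤ (1 / 8) ^ (k + 1))
  have h7 : (1:ℝ) ≤ Real.exp x := Real.one_le_exp hx
  linarith

theorem Ek_le_pow (k : ℕ) {x : ℝ} (hx : 0 ≤ x) : Ek k x ≤ (1 + x) ^ k := by
  unfold Ek
  rw [add_comm 1 x, add_pow]
  refine Finset.sum_le_sum fun j hj => ?_
  rw [one_pow, mul_one]
  have h1 : 1 ≤ k.choose j := Nat.choose_pos (Nat.lt_succ_iff.1 (Finset.mem_range.1 hj))
  have h2 : (1:ℝ) ≤ (k.choose j : ℝ) := by exact_mod_cast h1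
  have h3 : (1:ℝ) ≤ (j.factorial : ℝ) := by exact_mod_cast Nat.factorial_pos j
  calc x ^ j / (j.factorial : ℝ) ≤ x ^ j := div_le_self (by positivity) h3
    _ = x ^ j * 1 := (mul_one _).symm
    _ ≤ _ := mul_le_mul_of_nonneg_left h2 (by positivity)

variable {y : ℕ}

theorem tp_lin (h : ST_TPA) (u : Pr y → ℝ) (hu : ∀ p, 0 ≤ u p) (α : ℝ) (s : Finset (Pr y)) :
    TP y 1 (∑ p ∈ s, u p) (fun φ => ((∑ p ∈ s, u p * Real.cos (φ p + α) : ℝ) : ℂ)) := by
  classical
  obtain ⟨hc, hcos, hadd, hmul, hpow, hmono⟩ := h y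
  induction s using Finset.induction_on with
  | empty =>
    have h1 := hc 0
    have h2 := hmono 0 1 _ 0 _ (Nat.zero_le 1) (le_of_eq norm_zero) h1
    simpa using h2
  | insert a s ha ih =>
    have h1 := hmul _ _ _ _ _ _ (hc (u a : ℂ)) (hcos a α)
    have h2 := hadd _ _ _ _ _ _ h1 ih
    rw [Complex.norm_real, Real.norm_of_nonneg (hu a), mul_one] at h2
    have h3 : max (0 + 1) 1 = 1 := by simp
    rw [h3] at h2
    rw [Finset.sum_insert ha]
    have h4 : (fun φ : Pr y → ℝ => ((∑ p ∈ insert a s, u p * Real.cos (φ p + α) : ℝ) : ℂ))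
        = fun φ => (u a : ℂ) * ((Real.cos (φ a + α) : ℝ) : ℂ) +
          ((∑ p ∈ s, u p * Real.cos (φ p + α) : ℝ) : ℂ) := by
      funext φ
      rw [Finset.sum_insert ha]
      push_cast
      ring
    rw [h4]
    exact h2

theorem tp_Ek (h : ST_TPA) {C : ℝ} {X : (Pr y → ℝ) → ℝ}
    (hX : TP y 1 C (fun φ => (X φ : ℂ))) (k : ℕ) :
    TP y k (Ek k C) (fun φ => ((Ek k (X φ) : ℝ) : ℂ)) := by
  obtain ⟨hc, hcos, hadd, hmul, hpow, hmono⟩ := h y
  induction k with
  | zero =>
    have h1 := hc 1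
    have h2 : (fun φ => ((Ek 0 (X φ) : ℝ) : ℂ)) = fun _ => (1 : ℂ) := by
      funext φ
      simp [Ek]
    have h3 : Ek 0 C = ‖(1:ℂ)‖ := by simp [Ek]
    rw [h2, h3]
    exact h1
  | succ k ih =>
    have h1 := hmul _ _ _ _ _ _ (hc ((1 / ((k + 1).factorial : ℝ) : ℝ) : ℂ)) (hpow _ _ _ hX (k + 1))
    have h2 := hadd _ _ _ _ _ _ ih h1
    rw [Complex.norm_real, Real.norm_of_nonneg (by positivity)] at h2
    have h3 : max k (0 + (k + 1) * 1) = k + 1 := by
      rw [zero_add, mul_one]; exact max_eq_right (Nat.le_succ k)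
    rw [h3] at h2
    have h4 : Ek (k + 1) C = Ek k C + 1 / ((k + 1).factorial : ℝ) * C ^ (k + 1) := by
      unfold Ek
      rw [Finset.sum_range_succ]
      ring
    have h5 : (fun φ => ((Ek (k + 1) (X φ) : ℝ) : ℂ)) = fun φ => ((Ek k (X φ) : ℝ) : ℂ) +
        ((1 / ((k + 1).factorial : ℝ) : ℝ) : ℂ) * (X φ : ℂ) ^ (k + 1) := by
      funext φ
      unfold Ek
      rw [Finset.sum_range_succ]
      push_cast
      ring
    rw [h4, h5]
    exact h2

theorem card_Pr (y : ℕ) : (Fintype.card (Pr y) : ℝ) ≤ y := by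
  have h1 : Fintype.card (Pr y) ≤ y := by
    rw [Fintype.card_coe]
    have h2 : Nat.primesBelow (y + 1) ⊆ Finset.Icc 1 y := by
      intro p hp
      rw [Nat.mem_primesBelow] at hp
      exact Finset.mem_Icc.2 ⟨hp.2.one_lt.le, Nat.lt_succ_iff.1 hp.1⟩
    have h3 := Finset.card_le_card h2
    rwa [Nat.card_Icc, Nat.add_sub_cancel] at h3
  exact_mod_cast h1

theorem ell_nonneg (x : ℝ) : 0 ≤ ell x := by
  unfold ell
  apply Real.log_nonneg
  unfold I0
  have hi : Integrable (fun φ : ℝ => Real.exp (x * Real.cos φ)) circ := by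
    refine Integrable.of_bound (Continuous.aestronglyMeasurable (by fun_prop)) (Real.exp |x|)
      (Eventually.of_forall fun φ => ?_)
    rw [Real.norm_of_nonneg (Real.exp_pos _).le]
    refine Real.exp_le_exp.2 ((le_abs_self _).trans ?_)
    rw [abs_mul]
    exact mul_le_of_le_one_right (abs_nonneg x) (Real.abs_cos_le_one φ)
  have hi2 : Integrable (fun φ : ℝ => 1 + x * Real.cos φ) circ := by
    refine Integrable.of_bound (Continuous.aestronglyMeasurable (by fun_prop)) (1 + |x|)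
      (Eventually.of_forall fun φ => ?_)
    refine (norm_add_le _ _).trans ?_
    rw [norm_one, Real.norm_eq_abs, abs_mul]
    have := mul_le_of_le_one_right (abs_nonneg x) (Real.abs_cos_le_one φ)
    linarith
  have hi3 : Integrable (fun φ : ℝ => x * Real.cos φ) circ := by
    refine Integrable.of_bound (Continuous.aestronglyMeasurable (by fun_prop)) |x|
      (Eventually.of_forall fun φ => ?_)
    rw [Real.norm_eq_abs, abs_mul]
    exact mul_le_of_le_one_right (abs_nonneg x) (Real.abs_cos_le_one φ)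
  have h0 : ∫ φ, Real.cos φ ∂circ = 0 := by
    unfold circ
    rw [integral_smul_measure, ← intervalIntegral.integral_of_le (by positivity), integral_cos,
      Real.sin_two_pi, Real.sin_zero, sub_zero, smul_zero]
  have h1 : ∫ φ, (1 + x * Real.cos φ) ∂circ = 1 := by
    rw [integral_add (integrable_const _) hi3, integral_const_mul, h0, mul_zero, add_zero,
      integral_const, probReal_univ, one_smul]
  rw [← h1]
  exact integral_mono hi2 hi fun φ => by
    have := Real.add_one_le_exp (x * Real.cos φ)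
    linarith

theorem per (u : Pr y → ℝ) (lam : ℝ) (φ : Pr y → ℝ) (p : Pr y) :
    Real.exp (∑ q : Pr y, (lam * u q) * Real.cos (Function.update φ p (φ p + 2 * Real.pi) q))
      = Real.exp (∑ q : Pr y, (lam * u q) * Real.cos (φ q)) := by
  congr 1
  refine Finset.sum_congr rfl fun q _ => ?_
  by_cases h : q = p
  · subst h
    rw [Function.update_self, Real.cos_add_two_pi]
  · rw [Function.update_of_ne h]

theorem int_exp (h1 : ST_PR0) (h2 : ST_ROT) (u : Pr y → ℝ) (lam α : ℝ) :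
    ∫ φ, Real.exp (lam * ∑ p : Pr y, u p * Real.cos (φ p + α)) ∂tor y
      = Real.exp (∑ p : Pr y, ell (lam * u p)) := by
  have h3 := h2 y α (fun φ => Real.exp (∑ q : Pr y, (lam * u q) * Real.cos (φ q)))
    (by fun_prop) (per u lam)
  rw [h1 y] at h3
  rw [← h3]
  congr 1
  funext φ
  rw [Finset.mul_sum]
  congr 1
  refine Finset.sum_congr rfl fun p _ => ?_
  ring

theorem bdd_U {u : Pr y → ℝ} (hu : ∀ p, 0 ≤ u p ∧ u p ≤ 1) (α : ℝ) (φ : Pr y → ℝ) :
    |∑ p : Pr y, u p * Real.cos (φ p + α)| ≤ y := by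
  refine (Finset.abs_sum_le_sum_abs _ _).trans ?_
  refine le_trans (Finset.sum_le_sum (g := fun _ => (1:ℝ)) fun p _ => ?_) ?_
  · rw [abs_mul, abs_of_nonneg (hu p).1]
    exact mul_le_one₀ (hu p).2 (abs_nonneg _) (Real.abs_cos_le_one _)
  · rw [Finset.sum_const, nsmul_eq_mul, mul_one, Finset.card_univ]
    exact card_Pr y

end S4UT

open S4UT in
theorem ut_of (h1 : ST_PR0) (h2 : ST_ROT) (h3 : ST_TPA) (h4 : ST_TPM) : ST_UT := by
  intro y k u α lam v T hy hk hu hlam hv hlv hT hTT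
  set U : (Pr y → ℝ) → ℝ := fun φ => ∑ p : Pr y, u p * Real.cos (φ p + α) with hU
  set E : ℝ := Real.exp (∑ p : Pr y, ell (lam * u p)) with hE
  set f : (Pr y → ℝ) → ℝ := fun φ => Ek k (lam / 2 * U φ) ^ 2 with hf
  have hE1 : 1 ≤ E := Real.one_le_exp (Finset.sum_nonneg fun p _ => ell_nonneg _)
  have hUc : Continuous U := by rw [hU]; fun_prop
  have hEc : Continuous (Ek k) := by unfold Ek; fun_prop
  have hfc : Continuous f := by rw [hf]; exact (hEc.comp (by fun_prop)).pow 2
  have hf0 : ∀ φ, 0 ≤ f φ := fun φ => sq_nonneg _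
  have hfle : ∀ φ, f φ ≤ Real.exp (lam * U φ) + Real.exp (-lam * U φ) := by
    intro φ
    have h5 := abs_Ek_le k (lam / 2 * U φ)
    have h6 : f φ ≤ Real.exp |lam * U φ| := by
      have h7 : f φ = |Ek k (lam / 2 * U φ)| ^ 2 := by rw [sq_abs]
      rw [h7]
      refine (pow_le_pow_left₀ (abs_nonneg _) h5 2).trans (le_of_eq ?_)
      rw [← Real.exp_nat_mul]
      congr 1
      have h8 : lam * U φ = 2 * (lam / 2 * U φ) := by ring
      rw [h8, abs_mul 2, abs_two]
      norm_num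
    refine h6.trans ?_
    rcases abs_cases (lam * U φ) with h | h
    · rw [h.1]; linarith [Real.exp_pos (-lam * U φ)]
    · rw [h.1, ← neg_mul]; linarith [Real.exp_pos (lam * U φ)]
  have hexpi : ∀ c : ℝ, Integrable (fun φ => Real.exp (c * U φ)) (tor y) := by
    intro c
    refine Integrable.of_bound (Continuous.aestronglyMeasurable (by fun_prop))
      (Real.exp (|c| * y)) (Eventually.of_forall fun φ => ?_)
    rw [Real.norm_of_nonneg (Real.exp_pos _).le]
    refine Real.exp_le_exp.2 ((le_abs_self _).trans ?_)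
    rw [abs_mul]
    exact mul_le_mul_of_nonneg_left (bdd_U hu α φ) (abs_nonneg c)
  have hfi : Integrable f (tor y) := by
    refine Integrable.mono' ((hexpi lam).add (hexpi (-lam))) hfc.aestronglyMeasurable
      (Eventually.of_forall fun φ => ?_)
    rw [Real.norm_of_nonneg (hf0 φ)]
    exact hfle φ
  have hint : ∫ φ, f φ ∂tor y ≤ 2 * E := by
    have h5 : ∫ φ, f φ ∂tor y ≤ ∫ φ, (Real.exp (lam * U φ) + Real.exp (-lam * U φ)) ∂tor y :=
      integral_mono hfi ((hexpi lam).add (hexpi (-lam))) hfle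
    rw [integral_add (hexpi lam) (hexpi (-lam))] at h5
    have h6 : ∫ φ, Real.exp (lam * U φ) ∂tor y = E := int_exp h1 h2 u lam α
    have h7 : ∫ φ, Real.exp (-lam * U φ) ∂tor y = E := by
      refine Eq.trans ?_ (int_exp h1 h2 u lam (α + Real.pi))
      congr 1
      funext φ
      congr 1
      rw [hU, neg_mul, ← mul_neg, ← Finset.sum_neg_distrib]
      congr 1
      refine Finset.sum_congr rfl fun p _ => ?_
      rw [← add_assoc, Real.cos_add_pi, mul_neg]
    linarith
  -- the trigonometric polynomial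
  set c : ℝ := lam / 2 * y with hc
  have hc0 : 0 ≤ c := by positivity
  have hsum : ∑ p : Pr y, u p ≤ y := by
    refine le_trans (Finset.sum_le_sum (g := fun _ => (1:ℝ)) fun p _ => (hu p).2) ?_
    rw [Finset.sum_const, nsmul_eq_mul, mul_one, Finset.card_univ]
    exact card_Pr y
  have htp1 : TP y 1 c (fun φ => ((lam / 2 * U φ : ℝ) : ℂ)) := by
    obtain ⟨tc, _, _, tm, _, tmo⟩ := h3 y
    have h5 := tm _ _ _ _ _ _ (tc ((lam / 2 : ℝ) : ℂ))
      (tp_lin h3 u (fun p => (hu p).1) α Finset.univ)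
    rw [Complex.norm_real, Real.norm_of_nonneg (by positivity)] at h5
    have h6 := tmo _ 1 _ c _ (by simp) (mul_le_mul_of_nonneg_left hsum (by positivity)) h5
    have h7 : (fun φ => ((lam / 2 * U φ : ℝ) : ℂ)) = fun φ : Pr y → ℝ => ((lam / 2 : ℝ) : ℂ) *
        ((∑ p ∈ Finset.univ, u p * Real.cos (φ p + α) : ℝ) : ℂ) := by
      funext φ
      rw [hU]
      push_cast
      ring
    rw [h7]
    exact h6
  have htp2 : TP y (2 * k) ((1 + lam * y) ^ (2 * k)) (fun φ => ((f φ : ℝ) : ℂ)) := by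
    obtain ⟨_, _, _, _, tp, tmo⟩ := h3 y
    have h5 := tp _ _ _ (tp_Ek h3 htp1 k) 2
    have h6 : Ek k c ^ 2 ≤ (1 + lam * y) ^ (2 * k) := by
      have h7 := Ek_le_pow k hc0
      have h8 : (1 + c) ^ k ≤ (1 + lam * y) ^ k := by
        refine pow_le_pow_left₀ (by positivity) ?_ k
        rw [hc]
        have : 0 ≤ lam * y := by positivity
        linarith
      rw [mul_comm 2 k, pow_mul]
      exact pow_le_pow_left₀ (Ek_nonneg hc0) (h7.trans h8) 2
    have h9 := tmo _ (2 * k) _ _ _ le_rfl h6 h5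
    have h10 : (fun φ => ((f φ : ℝ) : ℂ)) = fun φ => ((Ek k (lam / 2 * U φ) : ℝ) : ℂ) ^ 2 := by
      funext φ
      rw [hf]
      push_cast
      ring
    rw [h10]
    exact h9
  have hline := h4 y (2 * k) _ _ hy htp2 T hT
  have hline2 : (∫ t in T..(2 * T), f (lin y t)) ≤ 3 * T * E := by
    have h5 : (∫ t in T..(2 * T), ((f (lin y t) : ℝ) : ℂ)) = ((∫ t in T..(2 * T), f (lin y t) : ℝ) : ℂ) :=
      intervalIntegral.integral_ofReal
    have h6 : (∫ φ, ((f φ : ℝ) : ℂ) ∂tor y) = ((∫ φ, f φ ∂tor y : ℝ) : ℂ) := integral_ofReal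
    rw [h5, h6, ← Complex.ofReal_mul, ← Complex.ofReal_sub, Complex.norm_real, Real.norm_eq_abs]
      at hline
    have h7 := (le_abs_self _).trans hline
    have h8 : T * ∫ φ, f φ ∂tor y ≤ T * (2 * E) := mul_le_mul_of_nonneg_left hint hT.le
    have h9 : T * 1 ≤ T * E := mul_le_mul_of_nonneg_left hE1 hT.le
    linarith
  have hlinc : Continuous (lin y) := by unfold lin; fun_prop
  have hgc : Continuous (fun t => f (lin y t)) := hfc.comp hlinc
  have hgi : Integrable (fun t => f (lin y t)) (volume.restrict (Icc T (2 * T))) :=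
    hgc.integrableOn_Icc
  have hmark := mul_meas_ge_le_integral_of_nonneg (μ := volume.restrict (Icc T (2 * T)))
    (f := fun t => f (lin y t)) (Eventually.of_forall fun t => hf0 _) hgi
    (3 / 4 * Real.exp (lam * v))
  have hI : ∫ t in Icc T (2 * T), f (lin y t) = ∫ t in T..(2 * T), f (lin y t) := by
    rw [intervalIntegral.integral_of_le (by linarith), integral_Icc_eq_integral_Ioc]
  rw [hI] at hmark
  have hsub : volume.real {t : ℝ | t ∈ Icc T (2 * T) ∧ v ≤ U (lin y t)} ≤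
      (volume.restrict (Icc T (2 * T))).real
        {t | 3 / 4 * Real.exp (lam * v) ≤ f (lin y t)} := by
    have hm : MeasurableSet {t | 3 / 4 * Real.exp (lam * v) ≤ f (lin y t)} :=
      measurableSet_le measurable_const hgc.measurable
    rw [measureReal_restrict_apply hm]
    refine measureReal_mono ?_ ?_
    · rintro t ⟨ht, hvt⟩
      refine ⟨?_, ht⟩
      change 3 / 4 * Real.exp (lam * v) ≤ Ek k (lam / 2 * U (lin y t)) ^ 2
      have h5 : Ek k (lam / 2 * v) ≤ Ek k (lam / 2 * U (lin y t)) :=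
        Ek_mono (by positivity) (mul_le_mul_of_nonneg_left hvt (by positivity))
      have h6 : 9 / 10 * Real.exp (lam / 2 * v) ≤ Ek k (lam / 2 * v) :=
        Ek_ge hk (by positivity) (by linarith)
      have h7 := pow_le_pow_left₀ (by positivity) (h6.trans h5) 2
      refine le_trans ?_ h7
      rw [mul_pow, ← Real.exp_nat_mul]
      have h8 : ((2:ℕ):ℝ) * (lam / 2 * v) = lam * v := by push_cast; ring
      rw [h8]
      have := Real.exp_pos (lam * v)
      nlinarith
    · exact ((measure_mono inter_subset_right).trans_lt measure_Icc_lt_top).ne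
  have h10 : 0 < 3 / 4 * Real.exp (lam * v) := by positivity
  have h11 : 3 / 4 * Real.exp (lam * v) *
      volume.real {t : ℝ | t ∈ Icc T (2 * T) ∧ v ≤ U (lin y t)} ≤ 3 * T * E :=
    ((mul_le_mul_of_nonneg_left hsub h10.le).trans hmark).trans hline2
  have h12 : Real.exp ((∑ p : Pr y, ell (lam * u p)) - lam * v) = E / Real.exp (lam * v) := by
    rw [Real.exp_sub]
  rw [h12]
  change volume.real {t : ℝ | t ∈ Icc T (2 * T) ∧ v ≤ U (lin y t)} ≤ _
  rw [mul_div_assoc', le_div_iff₀ (Real.exp_pos _)]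
  linarith

end Pool.Agent.Helper57.QZ
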